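import Pool.Agent.Y532.GA.Base

/-!
# Specialization of a relation at `X = 2 ^ k`
-/

set_option autoImplicit false

open Polynomial Finset

namespace Pool.Agent.Y532.GA

/-- the radical -/
def rad (m : ℤ) : ℕ := m.natAbs.primeFactors.prod id

namespace Rel

variable {ι : Type} [Fintype ι] {d : ℕ}

/-- the values of the terms at integers -/
def val (R : Rel ι d) (i : ι) (T : ℤ) : ℤ := R.c i * T ^ R.a i * (T + 1) ^ R.b i * (T - 1) ^ R.e i

lemma eval_p (R : Rel ι d) (i : ι) (T : ℤ) : eval (T : ℚ) (R.p i) = (R.val i T : ℚ) := by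
  unfold p val
  rw [eval_mo]
  push_cast
  ring

lemma val_sum (R : Rel ι d) (T : ℤ) : ∑ i, R.val i T = 0 := by
  have h := congrArg (eval (T : ℚ)) R.sum'
  rw [eval_finsetSum, eval_zero] at h
  simp only [R.eval_p] at h
  exact_mod_cast h

lemma subsum_ne (R : Rel ι d) (I : Finset ι) (h1 : I.Nonempty) (h2 : I ≠ univ) : ∑ i ∈ I, R.p i ≠ 0 := by
  classical
  intro h
  obtain ⟨i, hi⟩ := h1
  obtain ⟨j, hj⟩ : ∃ j, j ∉ I := by
    by_contra hcon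
    push Not at hcon
    exact h2 (eq_univ_of_forall hcon)
  have h3 : ∑ i, C (if i ∈ I then (1 : ℚ) else 0) * R.p i = 0 := by
    rw [← h, ← sum_subset (subset_univ I)]
    · exact sum_congr rfl fun k hk => by rw [if_pos hk]; simp
    · intro k _ hk
      rw [if_neg hk]; simp
  have h4 := R.min' (fun i => if i ∈ I then (1 : ℚ) else 0) h3 i j
  simp only [if_pos hi, if_neg hj] at h4
  exact one_ne_zero h4

lemma subsum_large (R : Rel ι d) : ∃ T₀ : ℕ, ∀ T : ℤ, (T₀ : ℤ) ≤ T → ∀ I : Finset ι, I.Nonempty → I ≠ univ →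
    ∑ i ∈ I, R.val i T ≠ 0 := by
  classical
  obtain ⟨M, hM⟩ := Finset.exists_le
    ((univ : Finset (Finset ι)).biUnion fun I => (∑ i ∈ I, R.p i).roots.toFinset)
  refine ⟨⌈M⌉₊ + 1, fun T hT I h1 h2 h3 => ?_⟩
  have h4 : eval (T : ℚ) (∑ i ∈ I, R.p i) = 0 := by
    rw [eval_finsetSum]
    simp only [R.eval_p]
    exact_mod_cast h3
  have h5 : (T : ℚ) ∈ (univ : Finset (Finset ι)).biUnion fun I => (∑ i ∈ I, R.p i).roots.toFinset := by
    rw [mem_biUnion]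
    refine ⟨I, mem_univ _, ?_⟩
    rw [Multiset.mem_toFinset, mem_roots (R.subsum_ne I h1 h2)]
    exact h4
  have h6 := hM _ h5
  have h7 : M ≤ (⌈M⌉₊ : ℚ) := Nat.le_ceil M
  have h8 : ((⌈M⌉₊ : ℚ)) + 1 ≤ (T : ℚ) := by exact_mod_cast hT
  linarith

lemma gcd_bound (R : Rel ι d) (T g : ℤ) (h1 : g ∣ R.val R.A₁ T) (h2 : g ∣ R.val R.B₁ T) :
    g ∣ R.c R.A₁ * R.c R.B₁ := by
  unfold val at h1 h2
  rw [R.hA₁.1, R.hA₁.2, pow_zero, pow_zero, mul_one, mul_one] at h1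
  rw [R.hB₁.1, pow_zero, mul_one] at h2
  have c1 : IsCoprime T (T + 1) := ⟨-1, 1, by ring⟩
  have c2 : IsCoprime T (T - 1) := ⟨1, -1, by ring⟩
  obtain ⟨x, y, hxy⟩ : IsCoprime (T ^ R.a R.A₁) ((T + 1) ^ R.b R.B₁ * (T - 1) ^ R.e R.B₁) :=
    IsCoprime.mul_right c1.pow c2.pow
  have e : R.c R.A₁ * R.c R.B₁ = x * R.c R.B₁ * (R.c R.A₁ * T ^ R.a R.A₁) +
      y * R.c R.A₁ * (R.c R.B₁ * (T + 1) ^ R.b R.B₁ * (T - 1) ^ R.e R.B₁) := by
    linear_combination (-(R.c R.A₁ * R.c R.B₁)) * hxy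
  rw [e]
  exact dvd_add (h1.mul_left _) (h2.mul_left _)

/-- the radical of the product of the values at `2 ^ k` -/
lemma rad_bound (R : Rel ι d) {k : ℕ} (hk : 1 ≤ k) (x : ι → ℤ) (hx : ∀ i, x i ∣ R.val i (2 ^ k)) :
    rad (∏ i, x i) ≤ 2 * (∏ i, (R.c i).natAbs) * 4 ^ k := by
  set W : ℕ := 2 * (∏ i, (R.c i).natAbs) with hW
  have hW0 : 0 < W := by
    have : 0 < ∏ i, (R.c i).natAbs := Finset.prod_pos fun i _ => Int.natAbs_pos.2 (R.c_ne i)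
    omega
  have h4 : 1 < 4 ^ k := Nat.one_lt_pow (by omega) (by norm_num)
  have hM : W * (4 ^ k - 1) ≠ 0 := by
    have : 0 < 4 ^ k - 1 := by omega
    positivity
  have hsub : (∏ i, x i).natAbs.primeFactors ⊆ (W * (4 ^ k - 1)).primeFactors := by
    intro p hp
    rw [Nat.mem_primeFactors] at hp ⊢
    obtain ⟨hpp, hpd, -⟩ := hp
    refine ⟨hpp, ?_, hM⟩
    have hpi : Prime (p : ℤ) := Nat.prime_iff_prime_int.mp hpp
    have hd : (p : ℤ) ∣ ∏ i, x i := Int.natCast_dvd.mpr hpd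
    obtain ⟨i, _, hi⟩ := (Prime.dvd_finsetProd_iff hpi _).mp hd
    have hv := hi.trans (hx i)
    unfold val at hv
    have e4 : ((4 ^ k - 1 : ℕ) : ℤ) = (2 ^ k + 1) * (2 ^ k - 1) := by
      rw [Nat.cast_sub h4.le]
      push_cast
      have : (4 : ℤ) ^ k = 2 ^ k * 2 ^ k := by rw [← mul_pow]; norm_num
      rw [this]; ring
    have hcast : ((W * (4 ^ k - 1) : ℕ) : ℤ) = (W : ℤ) * ((2 ^ k + 1) * (2 ^ k - 1)) := by
      rw [Nat.cast_mul, e4]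
    have goal : (p : ℤ) ∣ (W : ℤ) * ((2 ^ k + 1) * (2 ^ k - 1)) := by
      rcases hpi.dvd_or_dvd hv with hv | hv
      · rcases hpi.dvd_or_dvd hv with hv | hv
        · rcases hpi.dvd_or_dvd hv with hv | hv
          · apply Dvd.dvd.mul_right
            rw [hW]
            push_cast
            apply Dvd.dvd.mul_left
            refine hv.trans ?_
            rw [← Int.dvd_natAbs.symm.symm]
            have h5 : (R.c i).natAbs ∣ ∏ i, (R.c i).natAbs := Finset.dvd_prod_of_mem _ (mem_univ i)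
            have h6 : (((R.c i).natAbs : ℕ) : ℤ) ∣ ((∏ i, (R.c i).natAbs : ℕ) : ℤ) := Int.natCast_dvd_natCast.2 h5
            rw [Int.natCast_natAbs, abs_dvd] at h6
            simpa using h6
          · have h2 := hpi.dvd_of_dvd_pow (hpi.dvd_of_dvd_pow hv)
            apply Dvd.dvd.mul_right
            rw [hW]
            push_cast
            exact h2.mul_right _
        · exact ((hpi.dvd_of_dvd_pow hv).mul_right _).mul_left _
      · exact ((hpi.dvd_of_dvd_pow hv).mul_left _).mul_left _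
    rw [← hcast] at goal
    exact Int.natCast_dvd_natCast.1 goal
  have h1 : (∏ i, x i).natAbs.primeFactors.prod id ≤ (W * (4 ^ k - 1)).primeFactors.prod id := by
    apply Finset.prod_le_prod_of_subset_of_one_le' hsub
    intro i hi _
    exact (Nat.prime_of_mem_primeFactors hi).one_le
  have h2 : (W * (4 ^ k - 1)).primeFactors.prod id ≤ W * (4 ^ k - 1) :=
    Nat.le_of_dvd (Nat.pos_of_ne_zero hM) (Nat.prod_primeFactors_dvd _)
  exact (h1.trans h2).trans (Nat.mul_le_mul_left _ (Nat.sub_le _ _))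

lemma val_large (R : Rel ι d) {k : ℕ} (hk : 1 ≤ k) : ((2 : ℝ) ^ k / 2) ^ d ≤ |(R.val R.B₁ (2 ^ k) : ℝ)| := by
  have h2 : (2 : ℝ) ≤ 2 ^ k := by
    calc (2 : ℝ) = 2 ^ 1 := (pow_one 2).symm
      _ ≤ 2 ^ k := pow_le_pow_right₀ (by norm_num) hk
  unfold val
  rw [R.hB₁.1, pow_zero, mul_one]
  push_cast
  rw [abs_mul, abs_mul]
  have hc : (1 : ℝ) ≤ |(R.c R.B₁ : ℝ)| := by
    have := Int.one_le_abs (R.c_ne R.B₁)
    exact_mod_cast this
  have e1 : |((2 : ℝ) ^ k + 1) ^ R.b R.B₁| = ((2 : ℝ) ^ k + 1) ^ R.b R.B₁ := abs_of_nonneg (by positivity)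
  have e2 : |((2 : ℝ) ^ k - 1) ^ R.e R.B₁| = ((2 : ℝ) ^ k - 1) ^ R.e R.B₁ :=
    abs_of_nonneg (pow_nonneg (by linarith) _)
  have hpow : ((2 : ℝ) ^ k / 2) ^ d = ((2 : ℝ) ^ k / 2) ^ R.b R.B₁ * ((2 : ℝ) ^ k / 2) ^ R.e R.B₁ := by
    rw [← pow_add, R.hB₁.2]
  rw [e1, e2, hpow]
  have h3 : ((2 : ℝ) ^ k / 2) ^ R.b R.B₁ ≤ ((2 : ℝ) ^ k + 1) ^ R.b R.B₁ :=
    pow_le_pow_left₀ (by positivity) (by linarith) _
  have h4 : ((2 : ℝ) ^ k / 2) ^ R.e R.B₁ ≤ ((2 : ℝ) ^ k - 1) ^ R.e R.B₁ :=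
    pow_le_pow_left₀ (by positivity) (by linarith) _
  have h5 : 0 ≤ ((2 : ℝ) ^ k + 1) ^ R.b R.B₁ := by positivity
  calc ((2 : ℝ) ^ k / 2) ^ R.b R.B₁ * ((2 : ℝ) ^ k / 2) ^ R.e R.B₁
      ≤ ((2 : ℝ) ^ k + 1) ^ R.b R.B₁ * ((2 : ℝ) ^ k - 1) ^ R.e R.B₁ := mul_le_mul h3 h4 (by positivity) h5
    _ = 1 * ((2 : ℝ) ^ k + 1) ^ R.b R.B₁ * ((2 : ℝ) ^ k - 1) ^ R.e R.B₁ := by ring
    _ ≤ _ := by
        have h6 : 0 ≤ ((2 : ℝ) ^ k - 1) ^ R.e R.B₁ := le_trans (by positivity) h4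
        gcongr

lemma one_le_rad (m : ℤ) : 1 ≤ rad m := by
  unfold rad
  exact Nat.one_le_iff_ne_zero.2 (Finset.prod_ne_zero_iff.2 fun p hp => (Nat.prime_of_mem_primeFactors hp).ne_zero)

/-- the specialization -/
theorem spec (R : Rel ι d) {θ : ℝ} (hθ : 2 * θ < d) (K : ℝ) : ∃ x : ι → ℤ, ∑ i, x i = 0 ∧ univ.gcd x = 1 ∧
    (∀ I : Finset ι, I.Nonempty → I ≠ univ → ∑ i ∈ I, x i ≠ 0) ∧
    ∃ i, K * (rad (∏ i, x i) : ℝ) ^ θ < ((|x i| : ℤ) : ℝ) := by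
  classical
  obtain ⟨T₀, hT₀⟩ := R.subsum_large
  set W : ℕ := 2 * (∏ i, (R.c i).natAbs) with hW
  set G : ℝ := |((R.c R.A₁ * R.c R.B₁ : ℤ) : ℝ)| with hG
  have hcc : R.c R.A₁ * R.c R.B₁ ≠ 0 := mul_ne_zero (R.c_ne _) (R.c_ne _)
  have hG0 : 0 < G := abs_pos.2 (by exact_mod_cast hcc)
  set t : ℝ := max θ 0 with ht
  have ht0 : 0 ≤ t := le_max_right _ _
  have htd : 2 * t < d := by
    rcases max_cases θ 0 with ⟨h, -⟩ | ⟨h, -⟩
    · rw [ht, h]; exact hθ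
    · rw [ht, h]
      have : (0 : ℝ) < d := by exact_mod_cast R.hd
      linarith
  have hb : 1 < (4 : ℝ) ^ ((d : ℝ) / 2 - t) := Real.one_lt_rpow (by norm_num) (by linarith)
  have hev := (tendsto_pow_atTop_atTop_of_one_lt hb).eventually_gt_atTop (|K| * (W : ℝ) ^ t * 2 ^ d * G)
  obtain ⟨k₀, hk₀⟩ := Filter.eventually_atTop.1 hev
  set k : ℕ := max k₀ (max T₀ 1) with hk
  have hkk : k₀ ≤ k := le_max_left _ _
  have hkT : T₀ ≤ k := (le_max_left _ _).trans (le_max_right _ _)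
  have hk1 : 1 ≤ k := (le_max_right _ _).trans (le_max_right _ _)
  have hTk : (T₀ : ℤ) ≤ 2 ^ k := by
    have : T₀ ≤ 2 ^ k := hkT.trans Nat.lt_two_pow_self.le
    exact_mod_cast this
  have hsub := hT₀ (2 ^ k) hTk
  -- divide by the gcd
  obtain ⟨x, hx1, hx2⟩ := Finset.extract_gcd (s := (univ : Finset ι)) (fun i => R.val i (2 ^ k)) ⟨R.A₁, mem_univ _⟩
  set g : ℤ := univ.gcd (fun i => R.val i (2 ^ k)) with hg
  have hgx : ∀ i, R.val i (2 ^ k) = g * x i := fun i => hx1 i (mem_univ i)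
  have hgd : ∀ i, g ∣ R.val i (2 ^ k) := fun i => ⟨x i, hgx i⟩
  have hgG : g ∣ R.c R.A₁ * R.c R.B₁ := R.gcd_bound _ g (hgd _) (hgd _)
  have hg0 : g ≠ 0 := fun h => hcc (by rw [h] at hgG; exact zero_dvd_iff.1 hgG)
  refine ⟨x, ?_, hx2, ?_, R.B₁, ?_⟩
  · have h := R.val_sum (2 ^ k)
    simp only [hgx] at h
    rw [← mul_sum] at h
    exact (mul_eq_zero.1 h).resolve_left hg0
  · intro I h1 h2 h3
    apply hsub I h1 h2
    simp only [hgx]
    rw [← mul_sum, h3, mul_zero]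
  · have hrad := R.rad_bound hk1 x (fun i => ⟨g, by rw [hgx, mul_comm]⟩)
    rw [← hW] at hrad
    have hrad' : ((rad (∏ i, x i) : ℕ) : ℝ) ≤ (W : ℝ) * 4 ^ k := by exact_mod_cast hrad
    have hr1 : (1 : ℝ) ≤ ((rad (∏ i, x i) : ℕ) : ℝ) := by exact_mod_cast one_le_rad _
    have hW0 : (0 : ℝ) ≤ W := Nat.cast_nonneg _
    have hgabs : |(g : ℝ)| ≤ G := by
      have h1 : |g| ≤ |R.c R.A₁ * R.c R.B₁| := Int.le_of_dvd (abs_pos.2 hcc) ((abs_dvd_abs _ _).2 hgG)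
      rw [hG]
      exact_mod_cast h1
    have hval := R.val_large hk1
    have hxB : |(R.val R.B₁ (2 ^ k) : ℝ)| = |(g : ℝ)| * |(x R.B₁ : ℝ)| := by
      rw [hgx]; push_cast; rw [abs_mul]
    have hlow : ((2 : ℝ) ^ k / 2) ^ d ≤ G * |(x R.B₁ : ℝ)| := by
      refine hval.trans ?_
      rw [hxB]
      exact mul_le_mul_of_nonneg_right hgabs (abs_nonneg _)
    have h5 : K * ((rad (∏ i, x i) : ℕ) : ℝ) ^ θ ≤ |K| * ((W : ℝ) ^ t * ((4 : ℝ) ^ k) ^ t) := by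
      calc K * ((rad (∏ i, x i) : ℕ) : ℝ) ^ θ ≤ |K| * ((rad (∏ i, x i) : ℕ) : ℝ) ^ θ :=
            mul_le_mul_of_nonneg_right (le_abs_self K) (Real.rpow_nonneg (by linarith) _)
        _ ≤ |K| * ((rad (∏ i, x i) : ℕ) : ℝ) ^ t :=
            mul_le_mul_of_nonneg_left (Real.rpow_le_rpow_of_exponent_le hr1 (le_max_left _ _)) (abs_nonneg _)
        _ ≤ |K| * ((W : ℝ) * 4 ^ k) ^ t :=
            mul_le_mul_of_nonneg_left (Real.rpow_le_rpow (by linarith) hrad' ht0) (abs_nonneg _)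
        _ = _ := by rw [Real.mul_rpow hW0 (by positivity)]
    have h6 := hk₀ k hkk
    have h7 : ((4 : ℝ) ^ ((d : ℝ) / 2 - t)) ^ k * ((4 : ℝ) ^ k) ^ t = ((2 : ℝ) ^ k) ^ d := by
      rw [← Real.rpow_natCast (4 : ℝ) k, ← Real.rpow_natCast ((4 : ℝ) ^ ((d : ℝ) / 2 - t)) k,
        ← Real.rpow_mul (by norm_num), ← Real.rpow_mul (by norm_num), ← Real.rpow_add (by norm_num),
        ← pow_mul, ← Real.rpow_natCast (2 : ℝ), show (4 : ℝ) = 2 ^ (2 : ℝ) by norm_num,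
        ← Real.rpow_mul (by norm_num)]
      congr 1
      push_cast
      ring
    have h8 : (0 : ℝ) < ((4 : ℝ) ^ k) ^ t := Real.rpow_pos_of_pos (by positivity) _
    have h9 : |K| * (W : ℝ) ^ t * 2 ^ d * G * ((4 : ℝ) ^ k) ^ t < ((2 : ℝ) ^ k) ^ d := by
      rw [← h7]
      exact mul_lt_mul_of_pos_right h6 h8
    have h10 : ((2 : ℝ) ^ k) ^ d ≤ 2 ^ d * (G * |(x R.B₁ : ℝ)|) := by
      have e : ((2 : ℝ) ^ k) ^ d = 2 ^ d * ((2 : ℝ) ^ k / 2) ^ d := by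
        rw [← mul_pow]
        congr 1
        ring
      rw [e]
      exact mul_le_mul_of_nonneg_left hlow (by positivity)
    have h11 : |K| * ((W : ℝ) ^ t * ((4 : ℝ) ^ k) ^ t) < |(x R.B₁ : ℝ)| := by
      have h12 : (0:ℝ) < 2 ^ d * G := by positivity
      apply lt_of_mul_lt_mul_left _ h12.le
      calc 2 ^ d * G * (|K| * ((W : ℝ) ^ t * ((4 : ℝ) ^ k) ^ t)) =
            |K| * (W : ℝ) ^ t * 2 ^ d * G * ((4 : ℝ) ^ k) ^ t := by ring
        _ < ((2 : ℝ) ^ k) ^ d := h9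
        _ ≤ 2 ^ d * (G * |(x R.B₁ : ℝ)|) := h10
        _ = _ := by ring
    push_cast
    exact lt_of_le_of_lt h5 h11

end Rel

/-- failure of the bound, for all `n` with a relation -/
theorem fails {N : ℕ} (h : Ex N) {θ : ℝ} (hθ : θ < 2 * N) (K : ℝ) : ∃ x : Fin (N + 2) → ℤ, ∑ i, x i = 0 ∧
    univ.gcd x = 1 ∧ (∀ I : Finset (Fin (N + 2)), I.Nonempty → I ≠ univ → ∑ i ∈ I, x i ≠ 0) ∧
    ∃ i, K * (rad (∏ i, x i) : ℝ) ^ θ < ((|x i| : ℤ) : ℝ) := by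
  classical
  obtain ⟨ι, inst, hc, ⟨R⟩⟩ := h
  obtain ⟨x, h1, h2, h3, i, h4⟩ := R.spec (θ := θ) (by push_cast; linarith) K
  let φ : Fin (N + 2) ≃ ι := (Fintype.equivFinOfCardEq hc).symm
  have hprod : ∏ j, x (φ j) = ∏ i, x i := Equiv.prod_comp φ x
  refine ⟨fun j => x (φ j), ?_, ?_, ?_, φ.symm i, ?_⟩
  · rw [Equiv.sum_comp φ x]; exact h1
  · have : univ.gcd (fun j => x (φ j)) = univ.gcd x := by
      have h5 : (univ : Finset ι) = univ.image φ := by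
        rw [Finset.image_univ_equiv]
      rw [h5, Finset.gcd_image]
      rfl
    rw [this]; exact h2
  · intro I hI1 hI2 hI3
    apply h3 (I.map φ.toEmbedding) (hI1.map)
    · intro h
      apply hI2
      rw [← Finset.map_univ_equiv φ] at h
      exact Finset.map_injective _ h
    · rw [Finset.sum_map]
      exact hI3
  · show K * ((rad (∏ j, x (φ j)) : ℕ) : ℝ) ^ θ < ((|x (φ (φ.symm i))| : ℤ) : ℝ)
    rw [hprod, Equiv.apply_symm_apply]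
    exact h4

end Pool.Agent.Y532.GA
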