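import Pool.Agent.Y532.GA.Rel

/-!
# Three relations: 10 terms of degree 32, 11 terms of degree 36, 12 terms of degree 40
-/

set_option autoImplicit false
set_option maxRecDepth 20000

open Polynomial Finset

namespace Pool.Agent.Y532.GA

/-- a polynomial vanishing identically has no coefficients -/
theorem coeffs_zero (l : List ℚ) (h : ∀ T : ℚ, l.foldr (fun c a => c + T * a) 0 = 0) : ∀ c ∈ l, c = 0 := by
  have key : ∀ l : List ℚ, l.foldr (fun c a => C c + X * a) (0 : ℚ[X]) = 0 → ∀ c ∈ l, c = 0 := by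
    intro l
    induction l with
    | nil => intro _ c hc; simp at hc
    | cons b l ih =>
      intro h c hc
      simp only [List.foldr_cons] at h
      have h0 := congrArg (fun p => coeff p 0) h
      simp only [coeff_add, coeff_C_zero, mul_coeff_zero, coeff_X_zero, zero_mul, add_zero, coeff_zero] at h0
      subst h0
      rw [map_zero, zero_add] at h
      have h1 := (mul_eq_zero.1 h).resolve_left X_ne_zero
      rcases List.mem_cons.1 hc with rfl | hc
      · rfl
      · exact ih h1 c hc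
  refine key l (Polynomial.funext fun T => ?_)
  rw [eval_zero, ← h T]
  clear h
  induction l with
  | nil => simp
  | cons b l ih => simp only [List.foldr_cons, eval_add, eval_mul, eval_C, eval_X, ih]

lemma eval_mo (T : ℚ) (c : ℤ) (a b e : ℕ) :
    eval T (mo c a b e) = (c : ℚ) * T ^ a * (T + 1) ^ b * (T - 1) ^ e := by
  unfold mo
  simp

theorem sum_ten (T : ℚ) : (65536) * T ^ 27 * (T + 1) ^ 0 * (T - 1) ^ 0 + (-65536) * T ^ 5 * (T + 1) ^ 0 * (T - 1) ^ 0 + (-1) * T ^ 0 * (T + 1) ^ 27 * (T - 1) ^ 5 + (1) * T ^ 0 * (T + 1) ^ 5 * (T - 1) ^ 27 + (44) * T ^ 1 * (T + 1) ^ 15 * (T - 1) ^ 15 + (3520) * T ^ 3 * (T + 1) ^ 13 * (T - 1) ^ 13 + (13312) * T ^ 5 * (T + 1) ^ 11 * (T - 1) ^ 11 + (-851968) * T ^ 11 * (T + 1) ^ 5 * (T - 1) ^ 5 + (-3604480) * T ^ 13 * (T + 1) ^ 3 * (T - 1) ^ 3 + (-720896) * T ^ 15 * (T + 1) ^ 1 * (T - 1) ^ 1 = 0 := by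
  ring

theorem min_ten (y0 y1 y2 y3 y4 y5 y6 y7 y8 y9 : ℚ)
    (h : ∀ T : ℚ, y0 * ((65536) * T ^ 27 * (T + 1) ^ 0 * (T - 1) ^ 0) + y1 * ((-65536) * T ^ 5 * (T + 1) ^ 0 * (T - 1) ^ 0) + y2 * ((-1) * T ^ 0 * (T + 1) ^ 27 * (T - 1) ^ 5) + y3 * ((1) * T ^ 0 * (T + 1) ^ 5 * (T - 1) ^ 27) + y4 * ((44) * T ^ 1 * (T + 1) ^ 15 * (T - 1) ^ 15) + y5 * ((3520) * T ^ 3 * (T + 1) ^ 13 * (T - 1) ^ 13) + y6 * ((13312) * T ^ 5 * (T + 1) ^ 11 * (T - 1) ^ 11) + y7 * ((-851968) * T ^ 11 * (T + 1) ^ 5 * (T - 1) ^ 5) + y8 * ((-3604480) * T ^ 13 * (T + 1) ^ 3 * (T - 1) ^ 3) + y9 * ((-720896) * T ^ 15 * (T + 1) ^ 1 * (T - 1) ^ 1) = 0) :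
    y1 = y0 ∧ y2 = y0 ∧ y3 = y0 ∧ y4 = y0 ∧ y5 = y0 ∧ y6 = y0 ∧ y7 = y0 ∧ y8 = y0 ∧ y9 = y0 := by
  have hz := coeffs_zero [
      (1) * y2 + (-1) * y3,
      (22) * y2 + (22) * y3 + (-44) * y4,
      (226) * y2 + (-226) * y3,
      (1430) * y2 + (1430) * y3 + (660) * y4 + (-3520) * y5,
      (6170) * y2 + (-6170) * y3,
      (-65536) * y1 + (18854) * y2 + (18854) * y3 + (-4620) * y4 + (45760) * y5 + (-13312) * y6,
      (40338) * y2 + (-40338) * y3,
      (54054) * y2 + (54054) * y3 + (20020) * y4 + (-274560) * y5 + (146432) * y6,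
      (17550) * y2 + (-17550) * y3,
      (-107250) * y2 + (-107250) * y3 + (-60060) * y4 + (1006720) * y5 + (-732160) * y6,
      (-278070) * y2 + (278070) * y3,
      (-331890) * y2 + (-331890) * y3 + (132132) * y4 + (-2516800) * y5 + (2196480) * y6 + (851968) * y7,
      (-98670) * y2 + (98670) * y3,
      (369150) * y2 + (369150) * y3 + (-220220) * y4 + (4530240) * y5 + (-4392960) * y6 + (-4259840) * y7 + (3604480) * y8,
      (721050) * y2 + (-721050) * y3,
      (589950) * y2 + (589950) * y3 + (283140) * y4 + (-6040320) * y5 + (6150144) * y6 + (8519680) * y7 + (-10813440) * y8 + (720896) * y9,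
      0,
      (-589950) * y2 + (-589950) * y3 + (-283140) * y4 + (6040320) * y5 + (-6150144) * y6 + (-8519680) * y7 + (10813440) * y8 + (-720896) * y9,
      (-721050) * y2 + (721050) * y3,
      (-369150) * y2 + (-369150) * y3 + (220220) * y4 + (-4530240) * y5 + (4392960) * y6 + (4259840) * y7 + (-3604480) * y8,
      (98670) * y2 + (-98670) * y3,
      (331890) * y2 + (331890) * y3 + (-132132) * y4 + (2516800) * y5 + (-2196480) * y6 + (-851968) * y7,
      (278070) * y2 + (-278070) * y3,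
      (107250) * y2 + (107250) * y3 + (60060) * y4 + (-1006720) * y5 + (732160) * y6,
      (-17550) * y2 + (17550) * y3,
      (-54054) * y2 + (-54054) * y3 + (-20020) * y4 + (274560) * y5 + (-146432) * y6,
      (-40338) * y2 + (40338) * y3,
      (65536) * y0 + (-18854) * y2 + (-18854) * y3 + (4620) * y4 + (-45760) * y5 + (13312) * y6,
      (-6170) * y2 + (6170) * y3,
      (-1430) * y2 + (-1430) * y3 + (-660) * y4 + (3520) * y5,
      (-226) * y2 + (226) * y3,
      (-22) * y2 + (-22) * y3 + (44) * y4,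
      (-1) * y2 + (1) * y3] (fun T => by
      simp only [List.foldr_cons, List.foldr_nil]
      linear_combination h T)
  simp only [List.mem_cons, List.not_mem_nil, or_false, forall_eq_or_imp, forall_eq] at hz
  obtain ⟨h0, h1, h2, h3, h4, h5, h6, h7, h8, h9, h10, h11, h12, h13, h14, h15, h16, h17, h18, h19, h20, h21, h22, h23, h24, h25, h26, h27, h28, h29, h30, h31, h32⟩ := hz
  exact ⟨by linear_combination (-1/65536) * h5 + (-1/65536) * h27,
    by linear_combination (1/2) * h0 + (25/65536) * h1 + (65/720896) * h3 + (1/720896) * h7 + (-1/65536) * h27,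
    by linear_combination (-1/2) * h0 + (25/65536) * h1 + (65/720896) * h3 + (1/720896) * h7 + (-1/65536) * h27,
    by linear_combination (-16109/720896) * h1 + (65/720896) * h3 + (1/720896) * h7 + (-1/65536) * h27,
    by linear_combination (-2797/720896) * h1 + (-699/3604480) * h3 + (1/720896) * h7 + (-1/65536) * h27,
    by linear_combination (-295/65536) * h1 + (-29/65536) * h3 + (7/851968) * h7 + (-1/65536) * h27,
    by linear_combination (1/256) * h1 + (225/360448) * h3 + (-19/1171456) * h7 + (1/851968) * h11 + (-1/65536) * h27,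
    by linear_combination (21/8192) * h1 + (1547/3604480) * h3 + (-1/90112) * h7 + (1/720896) * h11 + (1/3604480) * h13 + (-1/65536) * h27,
    by linear_combination (415/65536) * h1 + (741/720896) * h3 + (-13/360448) * h7 + (5/720896) * h11 + (3/720896) * h13 + (1/720896) * h15 + (-1/65536) * h27⟩

/-- the relation with 10 terms of degree 32 -/
noncomputable def rel_ten : Rel (Fin 10) 32 where
  c := ![65536, -65536, -1, 1, 44, 3520, 13312, -851968, -3604480, -720896]
  a := ![27, 5, 0, 0, 1, 3, 5, 11, 13, 15]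
  b := ![0, 0, 27, 5, 15, 13, 11, 5, 3, 1]
  e := ![0, 0, 5, 27, 15, 13, 11, 5, 3, 1]
  hd := by norm_num
  c_ne := by decide
  deg := by decide
  sum := by
    refine Polynomial.funext fun T => ?_
    have h := sum_ten T
    simp only [eval_finsetSum, eval_zero]
    simp [Fin.sum_univ_succ, eval_mo]
    linear_combination h
  min := by
    intro y hy
    have h := min_ten (y 0) (y 1) (y 2) (y 3) (y 4) (y 5) (y 6) (y 7) (y 8) (y 9) (fun T => by
      have h := congrArg (eval T) hy
      simp only [eval_finsetSum, eval_mul, eval_C, eval_zero] at h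
      simp [Fin.sum_univ_succ, eval_mo] at h
      linear_combination h)
    obtain ⟨h1, h2, h3, h4, h5, h6, h7, h8, h9⟩ := h
    have hall : ∀ i, y i = y 0 := by
      intro i
      fin_cases i
      · rfl
      · exact h1
      · exact h2
      · exact h3
      · exact h4
      · exact h5
      · exact h6
      · exact h7
      · exact h8
      · exact h9
    intro i j
    rw [hall i, hall j]
  A₁ := 0
  A₂ := 1
  A_ne := by decide
  hA₁ := by decide
  hA₂ := by decide
  B₁ := 2
  B₂ := 3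
  B_ne := by decide
  hB₁ := by decide
  hB₂ := by decide

theorem sum_eleven (T : ℚ) : (720896) * T ^ 31 * (T + 1) ^ 0 * (T - 1) ^ 0 + (-720896) * T ^ 5 * (T + 1) ^ 0 * (T - 1) ^ 0 + (-9371648) * T ^ 23 * (T + 1) ^ 2 * (T - 1) ^ 2 + (9371648) * T ^ 9 * (T + 1) ^ 2 * (T - 1) ^ 2 + (-13) * T ^ 0 * (T + 1) ^ 29 * (T - 1) ^ 7 + (13) * T ^ 0 * (T + 1) ^ 7 * (T - 1) ^ 29 + (572) * T ^ 1 * (T + 1) ^ 17 * (T - 1) ^ 17 + (45760) * T ^ 3 * (T + 1) ^ 15 * (T - 1) ^ 15 + (304128) * T ^ 5 * (T + 1) ^ 13 * (T - 1) ^ 13 + (7667712) * T ^ 11 * (T + 1) ^ 7 * (T - 1) ^ 7 + (-9371648) * T ^ 17 * (T + 1) ^ 1 * (T - 1) ^ 1 = 0 := by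
  ring

theorem min_eleven (y0 y1 y2 y3 y4 y5 y6 y7 y8 y9 y10 : ℚ)
    (h : ∀ T : ℚ, y0 * ((720896) * T ^ 31 * (T + 1) ^ 0 * (T - 1) ^ 0) + y1 * ((-720896) * T ^ 5 * (T + 1) ^ 0 * (T - 1) ^ 0) + y2 * ((-9371648) * T ^ 23 * (T + 1) ^ 2 * (T - 1) ^ 2) + y3 * ((9371648) * T ^ 9 * (T + 1) ^ 2 * (T - 1) ^ 2) + y4 * ((-13) * T ^ 0 * (T + 1) ^ 29 * (T - 1) ^ 7) + y5 * ((13) * T ^ 0 * (T + 1) ^ 7 * (T - 1) ^ 29) + y6 * ((572) * T ^ 1 * (T + 1) ^ 17 * (T - 1) ^ 17) + y7 * ((45760) * T ^ 3 * (T + 1) ^ 15 * (T - 1) ^ 15) + y8 * ((304128) * T ^ 5 * (T + 1) ^ 13 * (T - 1) ^ 13) + y9 * ((7667712) * T ^ 11 * (T + 1) ^ 7 * (T - 1) ^ 7) + y10 * ((-9371648) * T ^ 17 * (T + 1) ^ 1 * (T - 1) ^ 1) = 0) :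
    y1 = y0 ∧ y2 = y0 ∧ y3 = y0 ∧ y4 = y0 ∧ y5 = y0 ∧ y6 = y0 ∧ y7 = y0 ∧ y8 = y0 ∧ y9 = y0 ∧ y10 = y0 := by
  have hz := coeffs_zero [
      (13) * y4 + (-13) * y5,
      (286) * y4 + (286) * y5 + (-572) * y6,
      (2912) * y4 + (-2912) * y5,
      (18018) * y4 + (18018) * y5 + (9724) * y6 + (-45760) * y7,
      (74347) * y4 + (-74347) * y5,
      (-720896) * y1 + (208208) * y4 + (208208) * y5 + (-77792) * y6 + (686400) * y7 + (-304128) * y8,
      (366912) * y4 + (-366912) * y5,
      (231088) * y4 + (231088) * y5 + (388960) * y6 + (-4804800) * y7 + (3953664) * y8,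
      (-740428) * y4 + (740428) * y5,
      (9371648) * y3 + (-2554552) * y4 + (-2554552) * y5 + (-1361360) * y6 + (20820800) * y7 + (-23721984) * y8,
      (-3546816) * y4 + (3546816) * y5,
      (-18743296) * y3 + (-823368) * y4 + (-823368) * y5 + (3539536) * y6 + (-62462400) * y7 + (86980608) * y8 + (-7667712) * y9,
      (6175260) * y4 + (-6175260) * y5,
      (9371648) * y3 + (12033840) * y4 + (12033840) * y5 + (-7079072) * y6 + (137417280) * y7 + (-217451520) * y8 + (53673984) * y9,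
      (8324160) * y4 + (-8324160) * y5,
      (-6243120) * y4 + (-6243120) * y5 + (11124256) * y6 + (-229028800) * y7 + (391412736) * y8 + (-161021952) * y9,
      (-20030010) * y4 + (20030010) * y5,
      (-18209100) * y4 + (-18209100) * y5 + (-13905320) * y6 + (294465600) * y7 + (-521883648) * y8 + (268369920) * y9 + (9371648) * y10,
      0,
      (18209100) * y4 + (18209100) * y5 + (13905320) * y6 + (-294465600) * y7 + (521883648) * y8 + (-268369920) * y9 + (-9371648) * y10,
      (20030010) * y4 + (-20030010) * y5,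
      (6243120) * y4 + (6243120) * y5 + (-11124256) * y6 + (229028800) * y7 + (-391412736) * y8 + (161021952) * y9,
      (-8324160) * y4 + (8324160) * y5,
      (-9371648) * y2 + (-12033840) * y4 + (-12033840) * y5 + (7079072) * y6 + (-137417280) * y7 + (217451520) * y8 + (-53673984) * y9,
      (-6175260) * y4 + (6175260) * y5,
      (18743296) * y2 + (823368) * y4 + (823368) * y5 + (-3539536) * y6 + (62462400) * y7 + (-86980608) * y8 + (7667712) * y9,
      (3546816) * y4 + (-3546816) * y5,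
      (-9371648) * y2 + (2554552) * y4 + (2554552) * y5 + (1361360) * y6 + (-20820800) * y7 + (23721984) * y8,
      (740428) * y4 + (-740428) * y5,
      (-231088) * y4 + (-231088) * y5 + (-388960) * y6 + (4804800) * y7 + (-3953664) * y8,
      (-366912) * y4 + (366912) * y5,
      (720896) * y0 + (-208208) * y4 + (-208208) * y5 + (77792) * y6 + (-686400) * y7 + (304128) * y8,
      (-74347) * y4 + (74347) * y5,
      (-18018) * y4 + (-18018) * y5 + (-9724) * y6 + (45760) * y7,
      (-2912) * y4 + (2912) * y5,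
      (-286) * y4 + (-286) * y5 + (572) * y6,
      (-13) * y4 + (13) * y5] (fun T => by
      simp only [List.foldr_cons, List.foldr_nil]
      linear_combination h T)
  simp only [List.mem_cons, List.not_mem_nil, or_false, forall_eq_or_imp, forall_eq] at hz
  obtain ⟨h0, h1, h2, h3, h4, h5, h6, h7, h8, h9, h10, h11, h12, h13, h14, h15, h16, h17, h18, h19, h20, h21, h22, h23, h24, h25, h26, h27, h28, h29, h30, h31, h32, h33, h34, h35, h36⟩ := hz
  exact ⟨by linear_combination (-1/720896) * h5 + (-1/720896) * h31,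
    by linear_combination (11543/9371648) * h1 + (1483/9371648) * h3 + (-7/4685824) * h7 + (7/4685824) * h9 + (7/9371648) * h11 + (-1/9371648) * h23 + (-1/720896) * h31,
    by linear_combination (-833/9371648) * h1 + (-85/9371648) * h3 + (7/9371648) * h7 + (1/9371648) * h9 + (-1/720896) * h31,
    by linear_combination (1/26) * h0 + (17/360448) * h1 + (45/4685824) * h3 + (1/9371648) * h7 + (-1/720896) * h31,
    by linear_combination (-1/26) * h0 + (17/360448) * h1 + (45/4685824) * h3 + (1/9371648) * h7 + (-1/720896) * h31,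
    by linear_combination (-7971/4685824) * h1 + (45/4685824) * h3 + (1/9371648) * h7 + (-1/720896) * h31,
    by linear_combination (-7599/23429120) * h1 + (-287/23429120) * h3 + (1/9371648) * h7 + (-1/720896) * h31,
    by linear_combination (-2261/9732096) * h1 + (-5/294912) * h3 + (7/19464192) * h7 + (-1/720896) * h31,
    by linear_combination (-5355/9371648) * h1 + (-5735/84344832) * h3 + (119/84344832) * h7 + (-1/3833856) * h9 + (-1/7667712) * h11 + (-1/720896) * h31,
    by linear_combination (13209/1171456) * h1 + (6745/4685824) * h3 + (-217/9371648) * h7 + (35/4685824) * h9 + (35/9371648) * h11 + (1/9371648) * h17 + (-1/720896) * h31⟩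

/-- the relation with 11 terms of degree 36 -/
noncomputable def rel_eleven : Rel (Fin 11) 36 where
  c := ![720896, -720896, -9371648, 9371648, -13, 13, 572, 45760, 304128, 7667712, -9371648]
  a := ![31, 5, 23, 9, 0, 0, 1, 3, 5, 11, 17]
  b := ![0, 0, 2, 2, 29, 7, 17, 15, 13, 7, 1]
  e := ![0, 0, 2, 2, 7, 29, 17, 15, 13, 7, 1]
  hd := by norm_num
  c_ne := by decide
  deg := by decide
  sum := by
    refine Polynomial.funext fun T => ?_
    have h := sum_eleven T
    simp only [eval_finsetSum, eval_zero]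
    simp [Fin.sum_univ_succ, eval_mo]
    linear_combination h
  min := by
    intro y hy
    have h := min_eleven (y 0) (y 1) (y 2) (y 3) (y 4) (y 5) (y 6) (y 7) (y 8) (y 9) (y 10) (fun T => by
      have h := congrArg (eval T) hy
      simp only [eval_finsetSum, eval_mul, eval_C, eval_zero] at h
      simp [Fin.sum_univ_succ, eval_mo] at h
      linear_combination h)
    obtain ⟨h1, h2, h3, h4, h5, h6, h7, h8, h9, h10⟩ := h
    have hall : ∀ i, y i = y 0 := by
      intro i
      fin_cases i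
      · rfl
      · exact h1
      · exact h2
      · exact h3
      · exact h4
      · exact h5
      · exact h6
      · exact h7
      · exact h8
      · exact h9
      · exact h10
    intro i j
    rw [hall i, hall j]
  A₁ := 0
  A₂ := 1
  A_ne := by decide
  hA₁ := by decide
  hA₂ := by decide
  B₁ := 4
  B₂ := 5
  B_ne := by decide
  hB₁ := by decide
  hB₂ := by decide

theorem sum_twelve (T : ℚ) : (896) * T ^ 39 * (T + 1) ^ 0 * (T - 1) ^ 0 + (-896) * T ^ 1 * (T + 1) ^ 0 * (T - 1) ^ 0 + (-19) * T ^ 0 * (T + 1) ^ 27 * (T - 1) ^ 13 + (19) * T ^ 0 * (T + 1) ^ 13 * (T - 1) ^ 27 + (-364) * T ^ 1 * (T + 1) ^ 19 * (T - 1) ^ 19 + (-284544) * T ^ 7 * (T + 1) ^ 13 * (T - 1) ^ 13 + (-1549184) * T ^ 9 * (T + 1) ^ 11 * (T - 1) ^ 11 + (-2434432) * T ^ 11 * (T + 1) ^ 9 * (T - 1) ^ 9 + (-2247168) * T ^ 13 * (T + 1) ^ 7 * (T - 1) ^ 7 + (-1123584) * T ^ 15 * (T + 1) ^ 5 * (T - 1) ^ 5 + (-255360) * T ^ 17 * (T + 1) ^ 3 * (T - 1) ^ 3 + (-17024) * T ^ 19 * (T + 1) ^ 1 * (T - 1) ^ 1 =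 0 := by
  ring

theorem min_twelve (y0 y1 y2 y3 y4 y5 y6 y7 y8 y9 y10 y11 : ℚ)
    (h : ∀ T : ℚ, y0 * ((896) * T ^ 39 * (T + 1) ^ 0 * (T - 1) ^ 0) + y1 * ((-896) * T ^ 1 * (T + 1) ^ 0 * (T - 1) ^ 0) + y2 * ((-19) * T ^ 0 * (T + 1) ^ 27 * (T - 1) ^ 13) + y3 * ((19) * T ^ 0 * (T + 1) ^ 13 * (T - 1) ^ 27) + y4 * ((-364) * T ^ 1 * (T + 1) ^ 19 * (T - 1) ^ 19) + y5 * ((-284544) * T ^ 7 * (T + 1) ^ 13 * (T - 1) ^ 13) + y6 * ((-1549184) * T ^ 9 * (T + 1) ^ 11 * (T - 1) ^ 11) + y7 * ((-2434432) * T ^ 11 * (T + 1) ^ 9 * (T - 1) ^ 9) + y8 * ((-2247168) * T ^ 13 * (T + 1) ^ 7 * (T - 1) ^ 7) + y9 * ((-1123584) * T ^ 15 * (T + 1) ^ 5 * (T - 1) ^ 5) + y10 * ((-255360) * T ^ 17 * (T + 1) ^ 3 * (T - 1) ^ 3) + y11 * ((-17024) * T ^ 19 * (T + 1) ^ 1 * (T - 1) ^ 1) = 0) :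
    y1 = y0 ∧ y2 = y0 ∧ y3 = y0 ∧ y4 = y0 ∧ y5 = y0 ∧ y6 = y0 ∧ y7 = y0 ∧ y8 = y0 ∧ y9 = y0 ∧ y10 = y0 ∧ y11 = y0 := by
  have hz := coeffs_zero [
      (19) * y2 + (-19) * y3,
      (-896) * y1 + (266) * y2 + (266) * y3 + (364) * y4,
      (1482) * y2 + (-1482) * y3,
      (3458) * y2 + (3458) * y3 + (-6916) * y4,
      (-1976) * y2 + (1976) * y3,
      (-31122) * y2 + (-31122) * y3 + (62244) * y4,
      (-60762) * y2 + (60762) * y3,
      (34086) * y2 + (34086) * y3 + (-352716) * y4 + (284544) * y5,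
      (317889) * y2 + (-317889) * y3,
      (369512) * y2 + (369512) * y3 + (1410864) * y4 + (-3699072) * y5 + (1549184) * y6,
      (-499928) * y2 + (499928) * y3,
      (-1677624) * y2 + (-1677624) * y3 + (-4232592) * y4 + (22194432) * y5 + (-17041024) * y6 + (2434432) * y7,
      (-707408) * y2 + (707408) * y3,
      (2980568) * y2 + (2980568) * y3 + (9876048) * y4 + (-81379584) * y5 + (85205120) * y6 + (-21909888) * y7 + (2247168) * y8,
      (4395384) * y2 + (-4395384) * y3,
      (-1262664) * y2 + (-1262664) * y3 + (-18341232) * y4 + (203448960) * y5 + (-255615360) * y6 + (87639552) * y7 + (-15730176) * y8 + (1123584) * y9,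
      (-8247330) * y2 + (8247330) * y3,
      (-4935060) * y2 + (-4935060) * y3 + (27511848) * y4 + (-366208128) * y5 + (511230720) * y6 + (-204492288) * y7 + (47190528) * y8 + (-5617920) * y9 + (255360) * y10,
      (7158060) * y2 + (-7158060) * y3,
      (11248380) * y2 + (11248380) * y3 + (-33625592) * y4 + (488277504) * y5 + (-715723008) * y6 + (306738432) * y7 + (-78650880) * y8 + (11235840) * y9 + (-766080) * y10 + (17024) * y11,
      0,
      (-11248380) * y2 + (-11248380) * y3 + (33625592) * y4 + (-488277504) * y5 + (715723008) * y6 + (-306738432) * y7 + (78650880) * y8 + (-11235840) * y9 + (766080) * y10 + (-17024) * y11,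
      (-7158060) * y2 + (7158060) * y3,
      (4935060) * y2 + (4935060) * y3 + (-27511848) * y4 + (366208128) * y5 + (-511230720) * y6 + (204492288) * y7 + (-47190528) * y8 + (5617920) * y9 + (-255360) * y10,
      (8247330) * y2 + (-8247330) * y3,
      (1262664) * y2 + (1262664) * y3 + (18341232) * y4 + (-203448960) * y5 + (255615360) * y6 + (-87639552) * y7 + (15730176) * y8 + (-1123584) * y9,
      (-4395384) * y2 + (4395384) * y3,
      (-2980568) * y2 + (-2980568) * y3 + (-9876048) * y4 + (81379584) * y5 + (-85205120) * y6 + (21909888) * y7 + (-2247168) * y8,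
      (707408) * y2 + (-707408) * y3,
      (1677624) * y2 + (1677624) * y3 + (4232592) * y4 + (-22194432) * y5 + (17041024) * y6 + (-2434432) * y7,
      (499928) * y2 + (-499928) * y3,
      (-369512) * y2 + (-369512) * y3 + (-1410864) * y4 + (3699072) * y5 + (-1549184) * y6,
      (-317889) * y2 + (317889) * y3,
      (-34086) * y2 + (-34086) * y3 + (352716) * y4 + (-284544) * y5,
      (60762) * y2 + (-60762) * y3,
      (31122) * y2 + (31122) * y3 + (-62244) * y4,
      (1976) * y2 + (-1976) * y3,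
      (-3458) * y2 + (-3458) * y3 + (6916) * y4,
      (-1482) * y2 + (1482) * y3,
      (896) * y0 + (-266) * y2 + (-266) * y3 + (-364) * y4,
      (-19) * y2 + (19) * y3] (fun T => by
      simp only [List.foldr_cons, List.foldr_nil]
      linear_combination h T)
  simp only [List.mem_cons, List.not_mem_nil, or_false, forall_eq_or_imp, forall_eq] at hz
  obtain ⟨h0, h1, h2, h3, h4, h5, h6, h7, h8, h9, h10, h11, h12, h13, h14, h15, h16, h17, h18, h19, h20, h21, h22, h23, h24, h25, h26, h27, h28, h29, h30, h31, h32, h33, h34, h35, h36, h37, h38, h39, h40⟩ := hz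
  exact ⟨by linear_combination (-1/896) * h1 + (-1/896) * h39,
    by linear_combination (1/38) * h0 + (1/17024) * h3 + (-1/896) * h39,
    by linear_combination (-1/38) * h0 + (1/17024) * h3 + (-1/896) * h39,
    by linear_combination (-1/11648) * h3 + (-1/896) * h39,
    by linear_combination (-5/41496) * h3 + (1/284544) * h7 + (-1/896) * h39,
    by linear_combination (-23/96824) * h3 + (1/119168) * h7 + (1/1549184) * h9 + (-1/896) * h39,
    by linear_combination (-5/7904) * h3 + (5/187264) * h7 + (1/221312) * h9 + (1/2434432) * h11 + (-1/896) * h39,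
    by linear_combination (-61/46816) * h3 + (13/187264) * h7 + (1/51072) * h9 + (3/749056) * h11 + (1/2247168) * h13 + (-1/896) * h39,
    by linear_combination (-1/418) * h3 + (13/80256) * h7 + (1/14592) * h9 + (9/374528) * h11 + (1/160512) * h13 + (1/1123584) * h15 + (-1/896) * h39,
    by linear_combination (-11/2660) * h3 + (13/36480) * h7 + (11/51072) * h9 + (1/8512) * h11 + (1/18240) * h13 + (1/51072) * h15 + (1/255360) * h17 + (-1/896) * h39,
    by linear_combination (-59/8512) * h3 + (13/17024) * h7 + (11/17024) * h9 + (9/17024) * h11 + (1/2432) * h13 + (5/17024) * h15 + (3/17024) * h17 + (1/17024) * h19 + (-1/896) * h39⟩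

/-- the relation with 12 terms of degree 40 -/
noncomputable def rel_twelve : Rel (Fin 12) 40 where
  c := ![896, -896, -19, 19, -364, -284544, -1549184, -2434432, -2247168, -1123584, -255360, -17024]
  a := ![39, 1, 0, 0, 1, 7, 9, 11, 13, 15, 17, 19]
  b := ![0, 0, 27, 13, 19, 13, 11, 9, 7, 5, 3, 1]
  e := ![0, 0, 13, 27, 19, 13, 11, 9, 7, 5, 3, 1]
  hd := by norm_num
  c_ne := by decide
  deg := by decide
  sum := by
    refine Polynomial.funext fun T => ?_
    have h := sum_twelve T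
    simp only [eval_finsetSum, eval_zero]
    simp [Fin.sum_univ_succ, eval_mo]
    linear_combination h
  min := by
    intro y hy
    have h := min_twelve (y 0) (y 1) (y 2) (y 3) (y 4) (y 5) (y 6) (y 7) (y 8) (y 9) (y 10) (y 11) (fun T => by
      have h := congrArg (eval T) hy
      simp only [eval_finsetSum, eval_mul, eval_C, eval_zero] at h
      simp [Fin.sum_univ_succ, eval_mo] at h
      linear_combination h)
    obtain ⟨h1, h2, h3, h4, h5, h6, h7, h8, h9, h10, h11⟩ := h
    have hall : ∀ i, y i = y 0 := by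
      intro i
      fin_cases i
      · rfl
      · exact h1
      · exact h2
      · exact h3
      · exact h4
      · exact h5
      · exact h6
      · exact h7
      · exact h8
      · exact h9
      · exact h10
      · exact h11
    intro i j
    rw [hall i, hall j]
  A₁ := 0
  A₂ := 1
  A_ne := by decide
  hA₁ := by decide
  hA₂ := by decide
  B₁ := 2
  B₂ := 3
  B_ne := by decide
  hB₁ := by decide
  hB₂ := by decide

theorem ex_eight : Ex 8 := ⟨Fin 10, inferInstance, by simp, ⟨rel_ten⟩⟩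

theorem ex_nine : Ex 9 := ⟨Fin 11, inferInstance, by simp, ⟨rel_eleven⟩⟩

theorem ex_ten : Ex 10 := ⟨Fin 12, inferInstance, by simp, ⟨rel_twelve⟩⟩

/-- sums of the numbers `8`, `9`, `10` -/
theorem ex_mul (k : ℕ) (hk : 1 ≤ k) : ∀ N : ℕ, 8 * k ≤ N → N ≤ 10 * k → Ex N := by
  induction k, hk using Nat.le_induction with
  | base =>
    intro N h1 h2
    have : N = 8 ∨ N = 9 ∨ N = 10 := by omega
    rcases this with rfl | rfl | rfl
    · exact ex_eight
    · exact ex_nine
    · exact ex_ten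
  | succ k hk ih =>
    intro N h1 h2
    by_cases h : N ≤ 10 * k + 8
    · have h3 := (ih (N - 8) (by omega) (by omega)).add ex_eight
      rwa [show N - 8 + 8 = N by omega] at h3
    · have h3 := (ih (N - 10) (by omega) (by omega)).add ex_ten
      rwa [show N - 10 + 10 = N by omega] at h3

/-- all `n ≥ 34` and `n = 10, 11, 12, 18, ..., 22, 26, ..., 32` -/
theorem ex_all (n : ℕ) (hn : (10 ≤ n ∧ n ≤ 12) ∨ (18 ≤ n ∧ n ≤ 22) ∨ (26 ≤ n ∧ n ≤ 32) ∨ 34 ≤ n) : Ex (n - 2) := by
  rcases hn with h | h | h | h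
  · exact ex_mul 1 le_rfl _ (by omega) (by omega)
  · exact ex_mul 2 (by omega) _ (by omega) (by omega)
  · exact ex_mul 3 (by omega) _ (by omega) (by omega)
  · exact ex_mul ((n - 2) / 8) (by omega) _ (by omega) (by omega)

end Pool.Agent.Y532.GA
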