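import Mathlib

/-!
# Additive relations between monomials in `X`, `X + 1`, `X - 1`, and their gluing

`Rel ι d`: a relation `∑ i, c i X^(a i) (X+1)^(b i) (X-1)^(e i) = 0` (`i` in the finite type `ι`), of degree `d`,
whose only scalar multiples are the obvious ones (so no proper subsum vanishes), with two terms supported at `0` and two
terms of full degree supported at `±1`.  Two relations of degrees `d`, `d'` with `n`, `n'` terms can be glued to a
relation of degree `d + d'` with `n + n' - 2` terms.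
-/

set_option autoImplicit false

open Polynomial Finset

namespace Pool.Agent.Y532.GA

/-- the polynomial `c X^a (X+1)^b (X-1)^e` -/
noncomputable def mo (c : ℤ) (a b e : ℕ) : ℚ[X] := C (c : ℚ) * X ^ a * (X + 1) ^ b * (X - 1) ^ e

lemma mo_mul (c c' : ℤ) (a b e a' b' e' : ℕ) :
    mo c a b e * mo c' a' b' e' = mo (c * c') (a + a') (b + b') (e + e') := by
  unfold mo
  push_cast
  rw [map_mul, pow_add, pow_add, pow_add]
  ring

lemma mo_neg (c : ℤ) (a b e : ℕ) : mo (-c) a b e = -mo c a b e := by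
  unfold mo
  push_cast
  rw [map_neg]
  ring

lemma mo_monic (a b e : ℕ) : Monic ((X : ℚ[X]) ^ a * (X + 1) ^ b * (X - 1) ^ e) := by
  have h1 : Monic ((X : ℚ[X]) + 1) := by
    have := monic_X_add_C (1 : ℚ)
    rwa [map_one] at this
  have h2 : Monic ((X : ℚ[X]) - 1) := by
    have := monic_X_sub_C (1 : ℚ)
    rwa [map_one] at this
  exact ((monic_X_pow a).mul (h1.pow b)).mul (h2.pow e)

lemma natDegree_mo {c : ℤ} (hc : c ≠ 0) (a b e : ℕ) : (mo c a b e).natDegree = a + b + e := by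
  have hc' : (c : ℚ) ≠ 0 := by exact_mod_cast hc
  have h1 : Monic ((X : ℚ[X]) + 1) := by
    have := monic_X_add_C (1 : ℚ)
    rwa [map_one] at this
  have h2 : Monic ((X : ℚ[X]) - 1) := by
    have := monic_X_sub_C (1 : ℚ)
    rwa [map_one] at this
  have h3 : ((X : ℚ[X]) + 1).natDegree = 1 := by
    have := natDegree_X_add_C (1 : ℚ)
    rwa [map_one] at this
  have h4 : ((X : ℚ[X]) - 1).natDegree = 1 := by
    have := natDegree_X_sub_C (1 : ℚ)
    rwa [map_one] at this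
  have e1 : mo c a b e = C (c : ℚ) * ((X : ℚ[X]) ^ a * (X + 1) ^ b * (X - 1) ^ e) := by
    unfold mo; ring
  rw [e1, natDegree_C_mul hc', ((monic_X_pow a).mul (h1.pow b)).natDegree_mul (h2.pow e),
    (monic_X_pow a).natDegree_mul (h1.pow b), h1.natDegree_pow, h2.natDegree_pow, natDegree_X_pow, h3, h4]
  ring

lemma mo_ne_zero {c : ℤ} (hc : c ≠ 0) (a b e : ℕ) : mo c a b e ≠ 0 := by
  have hc' : (c : ℚ) ≠ 0 := by exact_mod_cast hc
  have e1 : mo c a b e = C (c : ℚ) * ((X : ℚ[X]) ^ a * (X + 1) ^ b * (X - 1) ^ e) := by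
    unfold mo; ring
  rw [e1]
  exact mul_ne_zero (C_ne_zero.2 hc') (mo_monic a b e).ne_zero

lemma isCoprime_mo {c c' : ℤ} (hc : c ≠ 0) (hc' : c' ≠ 0) (a b e : ℕ) :
    IsCoprime (mo c 0 b e) (mo c' a 0 0) := by
  have hcq : (c : ℚ) ≠ 0 := by exact_mod_cast hc
  have hcq' : (c' : ℚ) ≠ 0 := by exact_mod_cast hc'
  have u1 : IsUnit (C (c : ℚ)) := isUnit_C.2 (isUnit_iff_ne_zero.2 hcq)
  have u2 : IsUnit (C (c' : ℚ)) := isUnit_C.2 (isUnit_iff_ne_zero.2 hcq')
  have h1 : IsCoprime ((X : ℚ[X]) + 1) X := ⟨1, -1, by ring⟩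
  have h2 : IsCoprime ((X : ℚ[X]) - 1) X := ⟨-1, 1, by ring⟩
  have h3 : IsCoprime (((X : ℚ[X]) + 1) ^ b * (X - 1) ^ e) (X ^ a) :=
    IsCoprime.mul_left (h1.pow) (h2.pow)
  have e1 : mo c 0 b e = C (c : ℚ) * (((X : ℚ[X]) + 1) ^ b * (X - 1) ^ e) := by
    unfold mo; ring
  have e2 : mo c' a 0 0 = C (c' : ℚ) * (X : ℚ[X]) ^ a := by
    unfold mo; ring
  rw [e1, e2]
  exact (isCoprime_mul_unit_left_left u1 _ _).2 ((isCoprime_mul_unit_left_right u2 _ _).2 h3)

/-- a relation of degree `d` indexed by `ι` -/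
structure Rel (ι : Type) [Fintype ι] (d : ℕ) where
  /-- coefficients -/
  c : ι → ℤ
  /-- exponents of `X` -/
  a : ι → ℕ
  /-- exponents of `X + 1` -/
  b : ι → ℕ
  /-- exponents of `X - 1` -/
  e : ι → ℕ
  hd : 0 < d
  c_ne : ∀ i, c i ≠ 0
  deg : ∀ i, a i + b i + e i ≤ d
  sum : ∑ i, mo (c i) (a i) (b i) (e i) = 0
  min : ∀ y : ι → ℚ, ∑ i, C (y i) * mo (c i) (a i) (b i) (e i) = 0 → ∀ i j, y i = y j
  /-- terms supported at `0` -/
  A₁ : ι
  /-- terms supported at `0` -/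
  A₂ : ι
  A_ne : A₁ ≠ A₂
  hA₁ : b A₁ = 0 ∧ e A₁ = 0
  hA₂ : b A₂ = 0 ∧ e A₂ = 0
  /-- terms supported at `±1` -/
  B₁ : ι
  /-- terms supported at `±1` -/
  B₂ : ι
  B_ne : B₁ ≠ B₂
  hB₁ : a B₁ = 0 ∧ b B₁ + e B₁ = d
  hB₂ : a B₂ = 0 ∧ b B₂ + e B₂ = d

namespace Rel

variable {ι κ : Type} [Fintype ι] [Fintype κ] {d d' : ℕ}

/-- the terms -/
noncomputable def p (R : Rel ι d) (i : ι) : ℚ[X] := mo (R.c i) (R.a i) (R.b i) (R.e i)

lemma sum' (R : Rel ι d) : ∑ i, R.p i = 0 := R.sum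

lemma min' (R : Rel ι d) (y : ι → ℚ) (h : ∑ i, C (y i) * R.p i = 0) (i j : ι) : y i = y j := R.min y h i j

lemma A_ne_B (R : Rel ι d) {A B : ι} (hA : R.b A = 0 ∧ R.e A = 0) (hB : R.a B = 0 ∧ R.b B + R.e B = d) : A ≠ B := by
  rintro rfl
  have := R.hd
  omega

lemma natDegree_p (R : Rel ι d) (i : ι) : (R.p i).natDegree ≤ d := by
  unfold p
  rw [natDegree_mo (R.c_ne i)]
  exact R.deg i

/-- the other terms of a relation determine the scalar -/
lemma min_sub [DecidableEq ι] (R : Rel ι d) (t : ι) (y : {i : ι // i ≠ t} → ℚ) (q : ℚ)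
    (h : ∑ i : {i : ι // i ≠ t}, C (y i) * R.p i = C q * R.p t) (i : {i : ι // i ≠ t}) : y i = -q := by
  set z : ι → ℚ := fun i => if h : i ≠ t then y ⟨i, h⟩ else -q with hz
  have h1 : ∑ i, C (z i) * R.p i = 0 := by
    rw [← Finset.add_sum_erase univ _ (mem_univ t)]
    have e1 : ∑ i ∈ univ.erase t, C (z i) * R.p i = ∑ i : {i : ι // i ≠ t}, C (y i) * R.p i := by
      rw [Finset.sum_subtype (univ.erase t) (p := fun i => i ≠ t) (f := fun i => C (z i) * R.p i)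
        (fun i => by simp)]
      refine sum_congr rfl fun i _ => ?_
      rw [hz]
      simp only [dif_pos i.2]
    rw [e1, h, hz]
    simp
  have h2 := R.min' z h1 i t
  rw [hz] at h2
  simp only [dif_pos i.2, ne_eq, not_true_eq_false, dite_false] at h2
  exact h2

lemma sum_sub [DecidableEq ι] (R : Rel ι d) (t : ι) : ∑ i : {i : ι // i ≠ t}, R.p i = -R.p t := by
  have h := R.sum'
  rw [← Finset.add_sum_erase univ _ (mem_univ t)] at h
  rw [← Finset.sum_subtype (univ.erase t) (p := fun i => i ≠ t) (f := fun i => R.p i) (fun i => by simp)]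
  linear_combination h

/-- gluing of two relations -/
noncomputable def glue [DecidableEq ι] [DecidableEq κ] (R : Rel ι d) (S : Rel κ d') :
    Rel ({i : ι // i ≠ R.B₁} ⊕ {j : κ // j ≠ S.A₁}) (d + d') := by
  have hh : R.p R.B₁ = mo (R.c R.B₁) 0 (R.b R.B₁) (R.e R.B₁) := by
    unfold p
    rw [R.hB₁.1]
  have hk : S.p S.A₁ = mo (S.c S.A₁) (S.a S.A₁) 0 0 := by
    unfold p
    rw [S.hA₁.1, S.hA₁.2]
  have hl : ∀ i : ι, mo (S.c S.A₁ * R.c i) (S.a S.A₁ + R.a i) (R.b i) (R.e i) = S.p S.A₁ * R.p i := by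
    intro i
    rw [hk]
    unfold p
    rw [mo_mul, zero_add, zero_add]
  have hr : ∀ j : κ, mo (-(R.c R.B₁ * S.c j)) (S.a j) (R.b R.B₁ + S.b j) (R.e R.B₁ + S.e j) =
      -(R.p R.B₁ * S.p j) := by
    intro j
    rw [hh]
    unfold p
    rw [mo_mul, zero_add, mo_neg]
  refine
    { c := Sum.elim (fun i => S.c S.A₁ * R.c i) (fun j => -(R.c R.B₁ * S.c j))
      a := Sum.elim (fun i => S.a S.A₁ + R.a i) (fun j => S.a j)
      b := Sum.elim (fun i => R.b i) (fun j => R.b R.B₁ + S.b j)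
      e := Sum.elim (fun i => R.e i) (fun j => R.e R.B₁ + S.e j)
      hd := by have := R.hd; omega
      c_ne := ?_
      deg := ?_
      sum := ?_
      min := ?_
      A₁ := Sum.inl ⟨R.A₁, R.A_ne_B R.hA₁ R.hB₁⟩
      A₂ := Sum.inl ⟨R.A₂, R.A_ne_B R.hA₂ R.hB₁⟩
      A_ne := fun h => R.A_ne (congrArg Subtype.val (Sum.inl.inj h))
      hA₁ := ⟨R.hA₁.1, R.hA₁.2⟩
      hA₂ := ⟨R.hA₂.1, R.hA₂.2⟩
      B₁ := Sum.inr ⟨S.B₁, (S.A_ne_B S.hA₁ S.hB₁).symm⟩
      B₂ := Sum.inr ⟨S.B₂, (S.A_ne_B S.hA₁ S.hB₂).symm⟩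
      B_ne := fun h => S.B_ne (congrArg Subtype.val (Sum.inr.inj h))
      hB₁ := ⟨S.hB₁.1, by
        have h1 := R.hB₁.2; have h2 := S.hB₁.2
        show R.b R.B₁ + S.b S.B₁ + (R.e R.B₁ + S.e S.B₁) = d + d'
        omega⟩
      hB₂ := ⟨S.hB₂.1, by
        have h1 := R.hB₁.2; have h2 := S.hB₂.2
        show R.b R.B₁ + S.b S.B₂ + (R.e R.B₁ + S.e S.B₂) = d + d'
        omega⟩ }
  · rintro (i | j)
    · exact mul_ne_zero (S.c_ne _) (R.c_ne _)
    · exact neg_ne_zero.2 (mul_ne_zero (R.c_ne _) (S.c_ne _))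
  · rintro (i | j)
    · have h1 := R.deg i
      have h2 := S.deg S.A₁
      show S.a S.A₁ + R.a i + R.b i + R.e i ≤ d + d'
      omega
    · have h1 := S.deg j
      have h2 := R.hB₁.2
      show S.a j + (R.b R.B₁ + S.b j) + (R.e R.B₁ + S.e j) ≤ d + d'
      omega
  · rw [Fintype.sum_sum_type]
    simp only [Sum.elim_inl, Sum.elim_inr, hl, hr]
    rw [← mul_sum, R.sum_sub, sum_neg_distrib, ← mul_sum, S.sum_sub]
    ring
  · intro y hy
    rw [Fintype.sum_sum_type] at hy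
    simp only [Sum.elim_inl, Sum.elim_inr, hl, hr] at hy
    set F := ∑ i : {i : ι // i ≠ R.B₁}, C (y (Sum.inl i)) * R.p i with hF
    set G := ∑ j : {j : κ // j ≠ S.A₁}, C (y (Sum.inr j)) * S.p j with hG
    have e1 : ∑ i : {i : ι // i ≠ R.B₁}, C (y (Sum.inl i)) * (S.p S.A₁ * R.p i) = S.p S.A₁ * F := by
      rw [hF, mul_sum]
      exact sum_congr rfl fun i _ => by ring
    have e2 : ∑ j : {j : κ // j ≠ S.A₁}, C (y (Sum.inr j)) * -(R.p R.B₁ * S.p j) = -(R.p R.B₁ * G) := by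
      rw [hG, mul_sum, ← sum_neg_distrib]
      exact sum_congr rfl fun j _ => by ring
    rw [e1, e2] at hy
    have hy' : S.p S.A₁ * F = R.p R.B₁ * G := by linear_combination hy
    have hcop : IsCoprime (R.p R.B₁) (S.p S.A₁) := by
      rw [hh, hk]
      exact isCoprime_mo (R.c_ne _) (S.c_ne _) _ _ _
    have hdvd : R.p R.B₁ ∣ F := hcop.dvd_of_dvd_mul_left ⟨G, hy'⟩
    obtain ⟨q, hq⟩ := hdvd
    have hR0 : R.p R.B₁ ≠ 0 := mo_ne_zero (R.c_ne _) _ _ _
    have hS0 : S.p S.A₁ ≠ 0 := mo_ne_zero (S.c_ne _) _ _ _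
    have hdF : F.natDegree ≤ d := by
      rw [hF]
      refine natDegree_sum_le_of_forall_le _ _ fun i _ => ?_
      exact (natDegree_C_mul_le _ _).trans (R.natDegree_p i)
    have hdt : (R.p R.B₁).natDegree = d := by
      rw [hh, natDegree_mo (R.c_ne _), zero_add, R.hB₁.2]
    have hqC : ∃ q0 : ℚ, q = C q0 := by
      rcases eq_or_ne q 0 with h0 | h0
      · exact ⟨0, by rw [h0, map_zero]⟩
      · rw [hq, natDegree_mul hR0 h0, hdt] at hdF
        exact ⟨q.coeff 0, eq_C_of_natDegree_le_zero (by omega)⟩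
    obtain ⟨q0, rfl⟩ := hqC
    have hFq : F = C q0 * R.p R.B₁ := by rw [hq]; ring
    have hGq : G = C q0 * S.p S.A₁ := by
      apply mul_left_cancel₀ hR0
      rw [← hy', hFq]
      ring
    have h1 := R.min_sub R.B₁ (fun i => y (Sum.inl i)) q0 hFq
    have h2 := S.min_sub S.A₁ (fun j => y (Sum.inr j)) q0 hGq
    have hall : ∀ x, y x = -q0 := by
      rintro (i | j)
      · exact h1 i
      · exact h2 j
    intro i j
    rw [hall i, hall j]

end Rel

/-- there is a relation with `N + 2` terms of degree `4 N` -/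
def Ex (N : ℕ) : Prop := ∃ (ι : Type) (_ : Fintype ι), Fintype.card ι = N + 2 ∧ Nonempty (Rel ι (4 * N))

theorem Ex.add {N M : ℕ} (hN : Ex N) (hM : Ex M) : Ex (N + M) := by
  classical
  obtain ⟨ι, i1, hc1, ⟨R⟩⟩ := hN
  obtain ⟨κ, i2, hc2, ⟨S⟩⟩ := hM
  refine ⟨{i : ι // i ≠ R.B₁} ⊕ {j : κ // j ≠ S.A₁}, inferInstance, ?_, ⟨by
    have := R.glue S
    rwa [← mul_add] at this⟩⟩
  rw [Fintype.card_sum]
  have h1 : Fintype.card {i : ι // i ≠ R.B₁} = Fintype.card ι - 1 := by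
    rw [Fintype.card_subtype_compl, Fintype.card_subtype_eq]
  have h2 : Fintype.card {j : κ // j ≠ S.A₁} = Fintype.card κ - 1 := by
    rw [Fintype.card_subtype_compl, Fintype.card_subtype_eq]
  rw [h1, h2, hc1, hc2]
  omega

end Pool.Agent.Y532.GA
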